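import Mathlib
import Pool.Agent.R521.PI.Main

set_option autoImplicit false

/-!
# Common roots modulo every ideal do not give recurrence over function fields
-/

open Polynomial Filter Topology

namespace Pool.Agent.Results.MP_045218_nt.IdealRootsNotRecurrent

/-- A Følner sequence in an abelian group `G`: nonempty finite sets `Φ N` with
`|(Φ N + a) △ Φ N| / |Φ N| → 0` for every `a` in `G`. -/
def IsFolner {G : Type*} [AddCommGroup G] (Φ : ℕ → Finset G) : Prop :=
  (∀ N, (Φ N).Nonempty) ∧
    ∀ a : G, Tendsto
      (fun N => ((symmDiff ((fun x => x + a) '' (Φ N : Set G)) (Φ N : Set G)).ncard : ℝ) /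
        ((Φ N).card : ℝ)) atTop (𝓝 0)

open Classical in
/-- The upper Banach density: the supremum over all Følner sequences `Φ` of
`limsup |A ∩ Φ N| / |Φ N|`. -/
noncomputable def upperBanachDensity {G : Type*} [AddCommGroup G] (A : Set G) : ℝ :=
  sSup {d : ℝ | ∃ Φ : ℕ → Finset G, IsFolner Φ ∧
    d = limsup (fun N => (((Φ N).filter (· ∈ A)).card : ℝ) / ((Φ N).card : ℝ)) atTop}

/-- Condition (i): for every nonzero ideal `I` of `R` there is `n` in `R` with
`P₁(n), …, P_k(n)` in `I`. -/
def CommonRootsModIdeals {R : Type*} [CommRing R] {k : ℕ} (P : Fin k → R[X]) : Prop :=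
  ∀ I : Ideal R, I ≠ ⊥ → ∃ n : R, ∀ i, (P i).eval n ∈ I

/-- Condition (ii): every `A ⊆ R` of positive upper Banach density contains a configuration
`{x, x + P₁(n), …, x + P_k(n)}` with `x, n` in `R`. -/
def Recurrent {R : Type*} [CommRing R] {k : ℕ} (P : Fin k → R[X]) : Prop :=
  ∀ A : Set R, 0 < upperBanachDensity A → ∃ x n : R, x ∈ A ∧ ∀ i, x + (P i).eval n ∈ A

/-- For every finite field `F` and every `k ≥ 1` there are distinct nonconstant polynomials
`P₁, …, P_k` over the ring of integers of the global function field `F(t)` that satisfy (i) and do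
not satisfy (ii). -/
theorem result (F : Type*) [Field F] [Finite F] (k : ℕ) (hk : 1 ≤ k) :
    ∃ P : Fin k → (FunctionField.ringOfIntegers F (RatFunc F))[X],
      (∀ i, 0 < (P i).natDegree) ∧ Function.Injective P ∧
        CommonRootsModIdeals P ∧ ¬ Recurrent P := by
  let e : F[X] ≃+* FunctionField.ringOfIntegers F (RatFunc F) :=
    (IsIntegralClosure.equiv F[X] F[X] (RatFunc F)
      (FunctionField.ringOfIntegers F (RatFunc F))).toRingEquiv
  exact Pool.Agent.R521.PI.main e k hk

end Pool.Agent.Results.MP_045218_nt.IdealRootsNotRecurrent
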